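import Pool.Agent.N53.CF.Stm
import Pool.Agent.N676.OR.Diag

/-!
# Convergents of continued fraction normal numbers and primes which divide a linear form exactly once

One set of density zero for countably many conditions.
-/

set_option autoImplicit false

namespace Pool.Agent.N527.CF

open MeasureTheory Filter Topology
open Pool.Agent.N24.RW Pool.Agent.N53.CF
open Pool.Agent.N676.OR (Hit Big lin pro_hits DensityZero diag dz_empty)
open Pool.Agent.W811.Stu (dig)

/-- For countably many properties of integers which hold for all integers which are divisible exactly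
once by a prime of each of finitely many big sets: one set of density zero for the values of all
linear forms at the convergents. -/
theorem cf_tw (hM : S_CF) {𝔇 : Type} [Countable 𝔇] (good : 𝔇 → ℤ → Prop)
    (h : ∀ D, ∃ PP : Set (Set ℕ), PP.Finite ∧ (∀ P ∈ PP, Big P) ∧
      ∀ a : ℤ, (∀ P ∈ PP, Hit P a) → good D a) (α : ℝ) (hα : CFNormal α) :
    ∃ E : Set ℕ, DensityZero E ∧ ∀ lam : Fin 2 → ℤ, lam ≠ 0 → ∀ D,
      {n : ℕ | n ∉ E ∧ ¬ good D (∑ i, lam i * cvg (dig α) n i)}.Finite := by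
  classical
  choose PP h1 h2 h3 using h
  have key : ∀ x : {lam : Fin 2 → ℤ // lam ≠ 0} × 𝔇,
      DensityZero {n : ℕ | cvg (dig α) n ∈ {c : Fin 2 → ℤ | ¬ ∀ P ∈ PP x.2, Hit P (lin x.1.1 c)}} :=
    fun x => hM _ (pro_hits (h1 x.2) (h2 x.2) x.1.2) α hα
  rcases isEmpty_or_nonempty ({lam : Fin 2 → ℤ // lam ≠ 0} × 𝔇) with hκ | hκ
  · exact ⟨∅, dz_empty, fun lam hlam D => (hκ.false (⟨lam, hlam⟩, D)).elim⟩
  obtain ⟨f, hf⟩ := exists_surjective_nat ({lam : Fin 2 → ℤ // lam ≠ 0} × 𝔇)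
  obtain ⟨E, hE1, hE2⟩ := diag _ fun k => key (f k)
  refine ⟨E, hE1, fun lam hlam D => ?_⟩
  obtain ⟨k, hk⟩ := hf (⟨lam, hlam⟩, D)
  refine (hE2 k).subset ?_
  rintro n ⟨hn, hng⟩
  refine ⟨?_, hn⟩
  rw [hk]
  exact fun hall => hng (h3 D _ hall)

end Pool.Agent.N527.CF
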